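import Pool.Agent.W275.UB.Stm

/-!
UB-NUL: the Nullstellensatz for systems whose only common zero is the origin.
-/

set_option autoImplicit false

namespace Pool.Agent.W563.UB.Null

open MvPolynomial Pool.Agent.W275.UB

theorem main : S_nul := by
  classical
  intro k J _ _ _ n g hg
  have h1 : ∀ i : Fin n, (X i : MvPolynomial (Fin n) k) ∈ (Ideal.span (Set.range g)).radical := by
    intro i
    rw [← vanishingIdeal_zeroLocus_eq_radical (K := k) (Ideal.span (Set.range g)),
      mem_vanishingIdeal_iff]
    intro x hx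
    have hx0 : x = 0 := by
      apply hg
      intro j
      have := mem_zeroLocus_iff.1 hx (g j) (Ideal.subset_span ⟨j, rfl⟩)
      simpa [aeval_eq_eval] using this
    simp [hx0]
  choose m hm using fun i => Ideal.mem_radical_iff.1 (h1 i)
  refine ⟨∑ i, m i + 1, ?_⟩
  intro s hs μ hμ
  have hex : ∃ i, m i ≤ μ i := by
    by_contra hcon
    push Not at hcon
    have h2 : ∑ i, μ i ≤ ∑ i, m i := Finset.sum_le_sum fun i _ => (hcon i).le
    rw [Finsupp.degree_eq_sum] at hμ
    omega
  obtain ⟨i, hi⟩ := hex
  have h3 : monomial μ (1 : k) = monomial (μ - Finsupp.single i (m i)) 1 * X i ^ (m i) := by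
    rw [X_pow_eq_monomial, monomial_mul, one_mul, tsub_add_cancel_of_le]
    rwa [Finsupp.single_le_iff]
  rw [h3]
  exact Ideal.mul_mem_left _ _ (hm i)

end Pool.Agent.W563.UB.Null
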